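import Pool.Agent.Helper12.MA.StD
import Pool.Agent.Helper45.NK.M_PAR

/-!
# Project MA, module UCC: a face of `G` on `{u, s}ᶜ` which meets both components is a face of `P`
-/

set_option autoImplicit false

namespace Pool.Agent.Helper88.MA

open Pool.Agent.Helper12.MA
open Pool.Agent.Helper51.AJ (IsMinor Planar Apex ExMinor Con Tch)
open Pool.Agent.Helper12.NK (rst Kc add cnt Pcy IsFace Cof plus)

private theorem ae_dl {V : Type} (G : SimpleGraph V) (x y : V) (h : G.Adj x y) :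
    ae (dl G x y) x y = G := by
  ext a b
  constructor
  · rintro (h1 | ⟨_, (⟨rfl, rfl⟩ | ⟨rfl, rfl⟩)⟩)
    · exact h1.1
    · exact h
    · exact h.symm
  · intro h1
    by_cases h2 : a = x ∧ b = y
    · exact Or.inr ⟨G.ne_of_adj h1, Or.inl h2⟩
    by_cases h3 : a = y ∧ b = x
    · exact Or.inr ⟨G.ne_of_adj h1, Or.inr h3⟩
    exact Or.inl ⟨h1, h2, h3⟩

private theorem con_single {V : Type} (G : SimpleGraph V) (x : V) : Con G {x} := by
  have : Nonempty ({x} : Set V) := ⟨⟨x, rfl⟩⟩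
  refine ⟨fun a b => ?_⟩
  have h1 : a = b := Subtype.ext (by
    have h2 : (a : V) = x := a.2
    have h3 : (b : V) = x := b.2
    rw [h2, h3])
  rw [h1]

theorem hUCC : StFUE → StPCL → StBAS → StFUX → StUCC := by
  intro hFUE hPCL hBAS hFUX V _ G s x y D₁ D₂ Γ u₁ u₁' u₂ u₂' w₁ w₂ u hB hxy hS hD1 hD2 hdis hu hF
    hw1 hw1' hw2 hw2'
  by_contra hcon
  obtain ⟨_, hb2, _, _, hb5, _, hb7⟩ := hBAS V G hB
  obtain ⟨hsx, hsy, hpl⟩ := hS
  obtain ⟨hux, huy, hc1, hc2⟩ := hu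
  have hne : x ≠ y := G.ne_of_adj hxy
  have hae := ae_dl G x y hxy
  have hset : ({s}ᶜ \ {u} : Set V) = {u, s}ᶜ := by
    ext a
    simp only [Set.mem_sdiff, Set.mem_compl_iff, Set.mem_singleton_iff, Set.mem_insert_iff, not_or]
    tauto
  have huU : u ∈ ({s}ᶜ : Set V) := by
    obtain ⟨F, ⟨m, c, hc, rfl⟩, _, h2⟩ := hc1
    exact hc.2.2.1 h2
  have hPn : Pn (dl G x y) {s}ᶜ := ⟨hb5 s x y, hpl⟩
  have hxU : x ∈ ({s}ᶜ : Set V) := fun h => hsx (by rw [Set.mem_singleton_iff] at h; exact h.symm)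
  have hyU : y ∈ ({s}ᶜ : Set V) := fun h => hsy (by rw [Set.mem_singleton_iff] at h; exact h.symm)
  have hnc : ¬ Cof (dl G x y) {s}ᶜ x y := hb7 s x y hxy ⟨hsx, hsy, hpl⟩
  have hc1' : Cof (dl G x y) {s}ᶜ u x := by
    obtain ⟨F, h1, h2, h3⟩ := hc1
    exact ⟨F, h1, h3, h2⟩
  have hc2' : Cof (dl G x y) {s}ᶜ u y := by
    obtain ⟨F, h1, h2, h3⟩ := hc2
    exact ⟨F, h1, h3, h2⟩
  have hKc : Kc 3 (ae (dl G x y) x y) ({s}ᶜ \ {u}) := by
    rw [hae, hset]
    exact hb2 u s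
  have hF' : IsFace (ae (dl G x y) x y) ({s}ᶜ \ {u}) Γ := by
    rw [hae, hset]
    exact hF
  obtain ⟨hpl2, _, _⟩ := hFUE V (dl G x y) {s}ᶜ u x y hPn huU hxU hyU hux huy hne hnc hc1' hc2' hKc
  rw [hae, hset] at hpl2
  have hos : s ∉ ({s}ᶜ : Set V) := fun h => h rfl
  obtain ⟨hxG, hyG⟩ := hFUX V (dl G x y) {s}ᶜ u x y s hPn huU hxU hyU hos hux huy hne hnc hc1' hc2'
    hKc Γ hF' hcon
  -- the graph `G` on `{u, s}ᶜ`
  have hPn2 : Pn G {u, s}ᶜ := ⟨hb2 u s, hpl2⟩
  have hmem : ∀ a : V, a ≠ u → a ≠ s → a ∈ ({u, s}ᶜ : Set V) := by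
    intro a h1 h2 h3
    rcases h3 with h3 | h3
    · exact h1 h3
    · exact h2 h3
  have hx2 : x ∈ ({u, s}ᶜ : Set V) := hmem x hux.symm hsx.symm
  have hy2 : y ∈ ({u, s}ᶜ : Set V) := hmem y huy.symm hsy.symm
  -- the components
  have hsub : ∀ D : Set V, D ⊆ ({s, x, y} ∪ US G s x y)ᶜ → D ⊆ ({s, x, y, u} : Set V)ᶜ := by
    intro D hD a ha h
    refine hD ha ?_
    rcases h with h | h | h | h
    · exact Or.inl (Or.inl h)
    · exact Or.inl (Or.inr (Or.inl h))
    · exact Or.inl (Or.inr (Or.inr h))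
    · refine Or.inr ?_
      rw [Set.mem_singleton_iff] at h
      rw [h]
      exact ⟨hux, huy, hc1, hc2⟩
  have hcard : ({s, x, y, u} : Set V).ncard ≤ 4 := by
    refine le_trans (Set.ncard_insert_le _ _) ?_
    refine Nat.succ_le_succ (le_trans (Set.ncard_insert_le _ _) ?_)
    refine Nat.succ_le_succ (le_trans (Set.ncard_insert_le _ _) ?_)
    rw [Set.ncard_singleton]
  have hW := hB.kc {s, x, y, u} hcard
  obtain ⟨K, L, hK, hL, hKL, hun, hcK, hcL, htch⟩ := Pool.Agent.Helper45.NK.hPAR V G ({s, x, y, u} : Set V)ᶜ D₁ D₂ hW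
    hD1.con hD2.con (hsub D₁ hD1.sub) (hsub D₂ hD2.sub) hdis
  have hKW : K ⊆ ({s, x, y, u} : Set V)ᶜ := by rw [← hun]; exact Set.subset_union_left
  have hLW : L ⊆ ({s, x, y, u} : Set V)ᶜ := by rw [← hun]; exact Set.subset_union_right
  have hWU : ({s, x, y, u} : Set V)ᶜ ⊆ {u, s}ᶜ := by
    intro a ha h
    refine ha ?_
    rcases h with h | h
    · exact Or.inr (Or.inr (Or.inr h))
    · exact Or.inl h
  have hnx : ∀ D u' u'', Bl G s x y D u' u'' → ∃ a ∈ D, G.Adj a x := by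
    intro D u' u'' h
    have h1 : x ∈ Nb G D := by rw [h.nb]; exact Or.inl rfl
    exact h1.2
  have hny : ∀ D u' u'', Bl G s x y D u' u'' → ∃ a ∈ D, G.Adj a y := by
    intro D u' u'' h
    have h1 : y ∈ Nb G D := by rw [h.nb]; exact Or.inr (Or.inl rfl)
    exact h1.2
  obtain ⟨p1, p2, _, _, p5, _⟩ := hPCL V G {u, s}ᶜ
  -- touching
  have tx : ∀ (D K : Set V) u' u'', Bl G s x y D u' u'' → D ⊆ K → K ⊆ ({s, x, y, u} : Set V)ᶜ →
      PT G {u, s}ᶜ {x} ∅ K ∅ := by
    intro D K u' u'' h1 h2 h3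
    obtain ⟨a, ha, hax⟩ := hnx D u' u'' h1
    exact Or.inl ⟨x, rfl, a, h2 ha, hx2, hWU (h3 (h2 ha)), hax.symm⟩
  have ty : ∀ (D K : Set V) u' u'', Bl G s x y D u' u'' → D ⊆ K → K ⊆ ({s, x, y, u} : Set V)ᶜ →
      PT G {u, s}ᶜ {y} ∅ K ∅ := by
    intro D K u' u'' h1 h2 h3
    obtain ⟨a, ha, hay⟩ := hny D u' u'' h1
    exact Or.inl ⟨y, rfl, a, h2 ha, hy2, hWU (h3 (h2 ha)), hay.symm⟩
  have tf : ∀ (A : Set V) (a : V), a ∈ A → a ∈ Γ → PT G {u, s}ᶜ A ∅ ∅ {Γ} := by
    intro A a h1 h2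
    exact Or.inr (Or.inl ⟨a, h1, Γ, rfl, hF, h2⟩)
  have dxK : ∀ K : Set V, K ⊆ ({s, x, y, u} : Set V)ᶜ → Disjoint ({x} : Set V) K := by
    intro K h
    rw [Set.disjoint_singleton_left]
    intro h1
    exact h h1 (Or.inr (Or.inl rfl))
  have dyK : ∀ K : Set V, K ⊆ ({s, x, y, u} : Set V)ᶜ → Disjoint ({y} : Set V) K := by
    intro K h
    rw [Set.disjoint_singleton_left]
    intro h1
    exact h h1 (Or.inr (Or.inr (Or.inl rfl)))
  have dxy : Disjoint ({x} : Set V) {y} := by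
    rw [Set.disjoint_singleton_left]
    exact hne
  have cx : PC G {u, s}ᶜ {x} ∅ := p1 {x} (by
    intro a ha
    rw [Set.mem_singleton_iff] at ha
    rw [ha]
    exact hx2) (con_single G x)
  have cy : PC G {u, s}ᶜ {y} ∅ := p1 {y} (by
    intro a ha
    rw [Set.mem_singleton_iff] at ha
    rw [ha]
    exact hy2) (con_single G y)
  have cK : PC G {u, s}ᶜ K ∅ := p1 K (hKW.trans hWU) hcK
  have cL : PC G {u, s}ᶜ L ∅ := p1 L (hLW.trans hWU) hcL
  have cF : PC G {u, s}ᶜ ∅ {Γ} := p2 Γ hF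
  have tKL : PT G {u, s}ᶜ K ∅ L ∅ := by
    obtain ⟨a, ha, b, hb, hab⟩ := htch
    exact Or.inl ⟨a, ha, b, hb, hWU (hKW ha), hWU (hLW hb), hab⟩
  have txy : PT G {u, s}ᶜ {x} ∅ {y} ∅ := Or.inl ⟨x, rfl, y, rfl, hx2, hy2, hxy⟩
  refine p5 hPn2 ![{x}, {y}, K, L, ∅] ![∅, ∅, ∅, ∅, {Γ}] ?_ ?_ ?_ ?_
  · intro i
    fin_cases i
    · exact cx
    · exact cy
    · exact cK
    · exact cL
    · exact cF
  · intro i j hij
    fin_cases i <;> fin_cases j
    · exact absurd rfl hij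
    · exact dxy
    · exact dxK K hKW
    · exact dxK L hLW
    · exact Set.disjoint_empty _
    · exact dxy.symm
    · exact absurd rfl hij
    · exact dyK K hKW
    · exact dyK L hLW
    · exact Set.disjoint_empty _
    · exact (dxK K hKW).symm
    · exact (dyK K hKW).symm
    · exact absurd rfl hij
    · exact hKL
    · exact Set.disjoint_empty _
    · exact (dxK L hLW).symm
    · exact (dyK L hLW).symm
    · exact hKL.symm
    · exact absurd rfl hij
    · exact Set.disjoint_empty _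
    · exact Set.empty_disjoint _
    · exact Set.empty_disjoint _
    · exact Set.empty_disjoint _
    · exact Set.empty_disjoint _
    · exact absurd rfl hij
  · intro i j hij
    fin_cases i <;> fin_cases j <;>
      first
        | exact absurd rfl hij
        | exact Set.disjoint_empty _
        | exact Set.empty_disjoint _
  · intro i j hij
    fin_cases i <;> fin_cases j
    · exact absurd hij (lt_irrefl _)
    · exact txy
    · exact tx D₁ K _ _ hD1 hK hKW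
    · exact tx D₂ L _ _ hD2 hL hLW
    · exact tf {x} x rfl hxG
    · exact absurd hij (by decide)
    · exact absurd hij (lt_irrefl _)
    · exact ty D₁ K _ _ hD1 hK hKW
    · exact ty D₂ L _ _ hD2 hL hLW
    · exact tf {y} y rfl hyG
    · exact absurd hij (by decide)
    · exact absurd hij (by decide)
    · exact absurd hij (lt_irrefl _)
    · exact tKL
    · exact tf K w₁ (hK hw1) hw1'
    · exact absurd hij (by decide)
    · exact absurd hij (by decide)
    · exact absurd hij (by decide)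
    · exact absurd hij (lt_irrefl _)
    · exact tf L w₂ (hL hw2) hw2'
    · exact absurd hij (by decide)
    · exact absurd hij (by decide)
    · exact absurd hij (by decide)
    · exact absurd hij (by decide)
    · exact absurd hij (lt_irrefl _)

end Pool.Agent.Helper88.MA
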